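import Pool.Agent.Run7.h668.TK.Iface

set_option autoImplicit false

namespace Pool.Agent.Run7.h181.TK

open Pool.Agent.Run7.h668.TK
open Polynomial

theorem eul_neg : ∀ m : ℕ, ∀ i : ℤ, i < 0 → eul m i = 0
  | 0, i, hi => by
      have : i ≠ 0 := by omega
      simp [eul, this]
  | m + 1, i, hi => by
      rw [eul, eul_neg m i hi, eul_neg m (i - 1) (by omega)]
      ring

theorem eul_nonpos : ∀ m : ℕ, 1 ≤ m → ∀ i : ℤ, i ≤ 0 → eul m i = 0
  | 0, hm, i, hi => by omega
  | m + 1, hm, i, hi => by
      rcases lt_or_eq_of_le hi with h | h
      · exact eul_neg _ _ h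
      · subst h
        rw [eul, eul_neg m (0 - 1) (by omega)]
        simp

theorem eul_one (i : ℤ) : eul 1 i = if i = 1 then 1 else 0 := by
  rw [eul, eul, eul]
  by_cases h0 : i = 0
  · subst h0; simp
  · by_cases h1 : i = 1
    · subst h1; norm_num
    · have h2 : i - 1 ≠ 0 := by omega
      simp [h0, h1, h2]

theorem eul_SU : ∀ m : ℕ, 1 ≤ m → SU (m + 1) (eul m)
  | 0, hm => by omega
  | 1, _ => by
      refine ⟨fun i => ?_, fun i hi => ?_⟩
      · rw [eul_one, eul_one]
        by_cases h : i = 1
        · subst h; norm_num
        · have h2 : ((1 : ℕ) : ℤ) + 1 - i ≠ 1 := by push_cast; omega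
          rw [if_neg h, if_neg h2]
      · rw [eul_one, eul_one]
        have h2 : i - 1 ≠ 1 := by push_cast at hi; omega
        rw [if_neg h2]
        split_ifs <;> norm_num
  | m + 2, _ => by
      obtain ⟨hs, hm⟩ := eul_SU (m + 1) (by omega)
      have key : ∀ i : ℤ, eul (m + 2) i = i * eul (m + 1) i + ((m : ℚ) + 3 - i) * eul (m + 1) (i - 1) := by
        intro i
        rw [eul]
        push_cast
        ring
      refine ⟨fun i => ?_, fun i hi => ?_⟩
      · rw [key, key]
        have e1 : eul (m + 1) (((m + 2 : ℕ) : ℤ) + 1 - i) = eul (m + 1) (i - 1) := by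
          rw [hs (i - 1)]
          congr 1
          push_cast; ring
        have e2 : eul (m + 1) (((m + 2 : ℕ) : ℤ) + 1 - i - 1) = eul (m + 1) i := by
          rw [hs i]
          congr 1
          push_cast; ring
        rw [e1, e2]
        push_cast
        ring
      · rcases le_or_gt i 0 with h0 | h0
        · rw [eul_nonpos (m + 2) (by omega) i h0, eul_nonpos (m + 2) (by omega) (i - 1) (by omega)]
        · have hd : eul (m + 2) i - eul (m + 2) (i - 1) =
              i * (eul (m + 1) i - eul (m + 1) (i - 1)) +
              ((m : ℚ) + 4 - i) * (eul (m + 1) (i - 1) - eul (m + 1) (i - 1 - 1)) := by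
            rw [key, key]
            push_cast
            ring
          have hi' : 2 * i ≤ (m : ℤ) + 4 := by push_cast at hi; omega
          have hiq : (0 : ℚ) < (i : ℚ) := by exact_mod_cast h0
          have hiq2 : (0 : ℚ) ≤ (m : ℚ) + 4 - i := by
            have : (i : ℚ) ≤ (m : ℚ) + 4 := by
              have : i ≤ (m : ℤ) + 4 := by omega
              exact_mod_cast this
            linarith
          rcases le_or_gt (2 * i) ((m : ℤ) + 3) with h1 | h1
          · have a1 := hm i (by push_cast; omega)
            have a2 := hm (i - 1) (by push_cast; omega)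
            have : 0 ≤ eul (m + 2) i - eul (m + 2) (i - 1) := by
              rw [hd]
              have := mul_nonneg hiq.le (sub_nonneg.2 a1)
              have := mul_nonneg hiq2 (sub_nonneg.2 a2)
              linarith
            linarith
          · have h2 : 2 * i = (m : ℤ) + 4 := by omega
            have e : eul (m + 1) i = eul (m + 1) (i - 1 - 1) := by
              rw [hs i]
              congr 1
              push_cast; omega
            have h3 : (2 : ℚ) * i = (m : ℚ) + 4 := by exact_mod_cast h2
            have : eul (m + 2) i - eul (m + 2) (i - 1) = 0 := by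
              rw [hd, e]
              have : (i : ℚ) = (m : ℚ) + 4 - i := by linarith
              rw [← this]
              ring
            linarith

theorem t_SUE : S_SUE := ⟨eul_neg, eul_SU⟩

end Pool.Agent.Run7.h181.TK
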