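import Pool.Agent.Run7.h668.TK.Iface

set_option autoImplicit false

namespace Pool.Agent.Run7.h181.TK

open Pool.Agent.Run7.h668.TK
open Polynomial

/-- signed subset sum with values in `BB` -/
noncomputable def gs : List ℕ → (ℕ → ℕ → BB) → BB
  | [], F => F 0 0
  | a :: ℓ, F => gs ℓ F - gs ℓ (fun s b => F (s + 1) (b + a))

theorem gs_sub (L : List ℕ) : ∀ F G : ℕ → ℕ → BB,
    gs L (fun s b => F s b - G s b) = gs L F - gs L G := by
  induction L with
  | nil => intro F G; rfl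
  | cons a L ih =>
    intro F G
    simp only [gs]
    rw [ih F G, ih (fun s b => F (s + 1) (b + a)) (fun s b => G (s + 1) (b + a))]
    ring

theorem ins_sub (N a : ℕ) (P Q : BB) : ins N a (P - Q) = ins N a P - ins N a Q := by
  unfold ins opE
  rw [derivative_sub]
  ring

theorem gs_ins (N a : ℕ) (L : List ℕ) : ∀ F : ℕ → ℕ → BB,
    ins N a (gs L F) = gs L (fun s b => ins N a (F s b)) := by
  induction L with
  | nil => intro F; rfl
  | cons c L ih =>
    intro F
    simp only [gs]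
    rw [ins_sub, ih, ih]

/-- the term of `S` -/
noncomputable def TT (n s b : ℕ) : BB := tt s b * C ((fpoly n s).map C)

theorem fpoly_succ (n s : ℕ) (hn : 2 ≤ n) :
    fpoly (n + 1) s = fpoly n s * (X - C (s : ℚ) + C ((n : ℚ) - 1)) := by
  obtain ⟨k, rfl⟩ : ∃ k, n = k + 2 := ⟨n - 2, by omega⟩
  unfold fpoly
  have e1 : k + 2 + 1 - 2 = k + 1 := by omega
  have e2 : k + 2 - 2 = k := by omega
  rw [e1, e2, Finset.prod_range_succ]
  congr 3
  push_cast
  ring

theorem fpoly_succ' (n s : ℕ) (hn : 2 ≤ n) :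
    fpoly (n + 1) (s + 1) = (X - C (s : ℚ)) * fpoly n s := by
  obtain ⟨k, rfl⟩ : ∃ k, n = k + 2 := ⟨n - 2, by omega⟩
  unfold fpoly
  have e1 : k + 2 + 1 - 2 = k + 1 := by omega
  have e2 : k + 2 - 2 = k := by omega
  rw [e1, e2, Finset.prod_range_succ']
  rw [mul_comm]
  congr 1
  · push_cast
    simp only [C_add, C_1, C_0]
    ring
  · refine Finset.prod_congr rfl fun i _ => ?_
    push_cast
    simp only [C_add, C_1]
    ring

theorem opE_TT (n s b : ℕ) : opE (TT n s b) = (s : BB) * TT n s b := by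
  unfold opE TT tt
  have h : (X : BB) ^ s * C (C (X ^ b)) * C ((fpoly n s).map C)
      = C (C (X ^ b) * (fpoly n s).map C) * X ^ s := by
    rw [C_mul]; ring
  rw [h, derivative_C_mul_X_pow]
  rcases Nat.eq_zero_or_pos s with h0 | h0
  · subst h0
    simp
  · obtain ⟨k, rfl⟩ : ∃ k, s = k + 1 := ⟨s - 1, by omega⟩
    rw [Nat.add_sub_cancel, C_mul, pow_succ]
    have : (C (((k + 1 : ℕ) : Polynomial (Polynomial ℚ))) : BB) = ((k + 1 : ℕ) : BB) := by
      simp
    rw [this]
    ring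

theorem tt_mul (k c k' c' : ℕ) : tt k c * tt k' c' = tt (k + k') (c + c') := by
  unfold tt
  rw [pow_add, pow_add, C_mul, C_mul]
  ring

theorem ins_TT (n a s b : ℕ) (hn : 2 ≤ n) :
    ins (n - 1) a (TT n s b) = TT (n + 1) s b - TT (n + 1) (s + 1) (b + a) := by
  unfold ins
  rw [opE_TT]
  unfold TT
  rw [fpoly_succ n s hn, fpoly_succ' n s hn]
  have e1 : tt (s + 1) (b + a) = tt 1 a * tt s b := by
    rw [tt_mul, Nat.add_comm 1 s, Nat.add_comm a b]
  rw [e1]
  obtain ⟨k, rfl⟩ : ∃ k, n = k + 1 := ⟨n - 1, by omega⟩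
  have e2 : (C ((X - C (s : ℚ)).map (C : ℚ →+* ℚ[X])) : BB) = uu - (s : BB) := by
    unfold uu
    simp
  have e3 : (C ((X - C (s : ℚ) + C (((k + 1 : ℕ) : ℚ) - 1)).map (C : ℚ →+* ℚ[X])) : BB)
      = uu - (s : BB) + (k : BB) := by
    unfold uu
    simp
  rw [Polynomial.map_mul, Polynomial.map_mul, C_mul, C_mul, e2, e3]
  rw [Nat.add_sub_cancel]
  ring

theorem WW_eq (c c' : ℕ) (ℓ : List ℕ) :
    WW c c' ℓ = gs (ℓ ++ [c, c']) (TT (ℓ.length + 2)) := by
  induction ℓ with
  | nil =>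
    simp only [WW, List.nil_append, gs, List.length_nil]
    have h : ∀ s b : ℕ, TT (0 + 2) s b = tt s b := by
      intro s b
      unfold TT fpoly
      simp
    rw [h, h, h, h]
    have h0 : tt 0 0 = 1 := by unfold tt; simp
    have h2 : tt (0 + 1 + 1) (0 + c' + c) = tt 1 c * tt 1 c' := by
      rw [tt_mul]
      congr 1
      omega
    rw [h0, h2]
    simp only [Nat.zero_add]
    ring
  | cons a ℓ ih =>
    have e1 : WW c c' (a :: ℓ) = ins (ℓ.length + 1) a (WW c c' ℓ) := rfl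
    rw [e1, ih, gs_ins]
    have e2 : (fun s b => ins (ℓ.length + 1) a (TT (ℓ.length + 2) s b)) =
        fun s b => TT (ℓ.length + 2 + 1) s b - TT (ℓ.length + 2 + 1) (s + 1) (b + a) := by
      funext s b
      exact ins_TT (ℓ.length + 2) a s b (by omega)
    rw [e2, gs_sub (ℓ ++ [c, c']) (TT (ℓ.length + 2 + 1))
      (fun s b => TT (ℓ.length + 2 + 1) (s + 1) (b + a))]
    rfl

theorem coeff_gs (s0 m b0 : ℕ) (L : List ℕ) : ∀ F : ℕ → ℕ → BB,
    ((((gs L F).coeff s0).coeff m).coeff b0 : ℚ) =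
      ssum L (fun s b => (((F s b).coeff s0).coeff m).coeff b0) := by
  induction L with
  | nil => intro F; rfl
  | cons a L ih =>
    intro F
    simp only [gs, ssum, coeff_sub]
    rw [ih, ih]

theorem coeff_TT (n s b s0 m b0 : ℕ) :
    (((TT n s b).coeff s0).coeff m).coeff b0 =
      if s = s0 ∧ b = b0 then (fpoly n s).coeff m else 0 := by
  unfold TT tt
  have h : (X : BB) ^ s * C (C (X ^ b)) * C ((fpoly n s).map C)
      = C (C (X ^ b) * (fpoly n s).map C) * X ^ s := by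
    rw [C_mul]; ring
  rw [h, coeff_C_mul_X_pow]
  by_cases h1 : s0 = s
  · subst h1
    rw [if_pos rfl, coeff_C_mul, coeff_map, coeff_mul_C, coeff_X_pow]
    by_cases h2 : b0 = b
    · subst h2
      simp
    · have h3 : ¬ (b = b0) := fun h => h2 h.symm
      simp [h2, h3]
  · have h3 : ¬ (s = s0) := fun h => h1 h.symm
    simp [h1, h3]

theorem t_WCO : S_WCO := by
  intro c c' ℓ s0 m b0
  rw [WW_eq, coeff_gs]
  congr 1
  funext s b
  exact coeff_TT _ _ _ _ _ _

end Pool.Agent.Run7.h181.TK
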